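import Pool.Agent.Helper46.FST.TrvC
import Pool.Agent.Helper15.FST.St

/-! [TRV] of FIRST. -/

set_option autoImplicit false

namespace Pool.Agent.Helper46.FST

open Finset Filter Topology Matrix Pool.Agent.Helper69.RK Pool.Agent.Helper31.EC Pool.Agent.Helper31.EC.Sp
open Pool.Agent.Helper40.EL Pool.Agent.Helper89.LX Pool.Agent.Helper84.MT Pool.Agent.Helper36.AM
open Pool.Agent.Helper29.MX Pool.Agent.Helper15.FST

noncomputable section

variable {S T : Sp} {N : ℕ} {E : ℕ → ℕ} {ι : Type}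

/-- the codimensions at the level `1` -/
theorem UL_one (s : MSys S N E ι) (c : ℝ) : UL s 1 c = N - volKO s (rbot S) c := by
  unfold UL
  rw [dif_pos ⟨zero_lt_one, le_rfl⟩, one_mul, div_one]
  exact congrArg (fun x => (N : ℝ) - x) (volKO_one s zero_lt_one le_rfl (rbot S) c)

theorem UL_of (s : MSys S N E ι) {r : ℝ} (h0 : 0 < r) (h1 : r ≤ 1) (c : ℝ) :
    UL s r c = r * (N - volKO (s.trn r h0 h1) (rbot (S.chg S.tr r h0)) (c / r)) := dif_pos ⟨h0, h1⟩

theorem pt_bot (s : MSys S N E ι) : Pt s (rbot S) := Eventually.of_forall fun k ω ω' _ _ _ r => by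
  have e : ω = ω' := r
  rw [e]

/-- one system -/
theorem trv [Finite ι] (s : MSys S N E ι) {e c : ℝ} (h0 : 0 < e) (h1 : e < 1)
    (h : ∀ (T : Sp) (p : Pj T S) (A : ∀ k, (T.F k).Ω → Prop) (hA : 0 < ul (T.pr A)), UL (s.im p A hA) 1 c ≤ e) :
    UL s 1 c ≤ UL s e c := by
  rw [UL_one, UL_of s h0 h1.le]
  refine trvO s (rbot S) (pt_bot s) h0 h1 fun T p A hA => ?_
  have h2 := h T p A hA
  rw [UL_one] at h2
  exact h2

/-- **[TRV]** -/
theorem row_trv : ROW_TRV := fun _ _ _ _ _ _ s _ _ h0 h1 _ _ h => trv s h0 h1 h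

end

end Pool.Agent.Helper46.FST
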