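import Pool.Agent.Helper71.VIS.Tnm

/-! VOLUMES OF TWO TRUNCATIONS: the codimension of the hull of degree `D` of the truncation at the level `r` exceeds the
codimension of the truncation at the level `t ≤ r` by at most `M D (r - t)` (the form is divided by the growth of the
polynomials of degree `D`). -/

set_option autoImplicit false

namespace Pool.Agent.Helper46.FST

open Finset Filter Topology Matrix MvPolynomial Pool.Agent.Helper69.RK Pool.Agent.Helper31.EC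
open Pool.Agent.Helper31.EC.Sp
open Pool.Agent.Helper40.EL Pool.Agent.Helper89.LX Pool.Agent.Helper3.LF Pool.Agent.Helper84.MT
open Pool.Agent.Helper95.LF
open Pool.Agent.Helper14.MC
open Pool.Agent.Helper3.PR
open Pool.Agent.Helper52.SL (untF tnF untL tnL nul_trn)
open Pool.Agent.Helper7.RD (volC volCO volC_eq volC_le_of volCO_le)
open Pool.Agent.Helper71.VIS (fcs untL_DMf tnL_DMf untL_kz tnL_kz gx_bd gx_nn mean_le r_gx)

noncomputable section

variable {S : Sp} {M D : ℕ} {κ : Type}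

theorem sub_unchg {r : ℝ} {h0 : 0 < r} {K : ℕ → ℝ} (hK : (S.chg S.tr r h0).Sub K) : S.Sub K := by
  refine ⟨hK.1, ?_⟩
  have h1 := hK.2.const_mul r
  rw [mul_zero] at h1
  refine h1.congr fun k => ?_
  show r * (Real.logb 2 (K k + 2) / (r * (S.F k).n)) = Real.logb 2 (K k + 2) / (S.F k).n
  have := (S.F k).pos
  field_simp

/-! ### finite level -/

/-- sizes: division by the growth -/
theorem phi_dn {A : Matrix (Mon M D) (Mon M D) ℝ} (hA : PdM A) {a b : ℝ} (ha : 0 < a) (hab : a ≤ b) (p : Fin M → ℝ) :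
    phi b (1 + (a / b) ^ (2 * D) • A) p ≤ phi b (1 : Matrix (Mon M D) (Mon M D) ℝ) p + cQ M D * phi a A p := by
  have hb : 0 < b := ha.trans_le hab
  rw [phi_add, phi_smul]
  have h1 : phi b A p ≤ nn M D * (Cu D * Cm M D * (b / a) ^ D) ^ 2 * phi a A p :=
    phi_comp A hA a b (b / a) ha hb.le ((one_le_div ha).mpr hab) p p fun i => by
      rw [sub_self, abs_zero, zero_add, div_mul_cancel₀ _ ha.ne']
  have h2 := mul_le_mul_of_nonneg_left h1 (show 0 ≤ (a / b) ^ (2 * D) by positivity)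
  have e1 : (a / b) ^ (2 * D) * (nn M D * (Cu D * Cm M D * (b / a) ^ D) ^ 2 * phi a A p) = cQ M D * phi a A p := by
    have e2 : (a / b) ^ (2 * D) * ((b / a) ^ D) ^ 2 = 1 := by
      rw [← pow_mul, mul_comm D 2, ← mul_pow]
      have : a / b * (b / a) = 1 := by field_simp
      rw [this, one_pow]
    unfold cQ
    rw [mul_pow (Cu D * Cm M D) ((b / a) ^ D) 2]
    calc _ = ((a / b) ^ (2 * D) * ((b / a) ^ D) ^ 2) * (nn M D * (Cu D * Cm M D) ^ 2 * phi a A p) := by ring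
      _ = _ := by rw [e2, one_mul]
  rw [e1] at h2
  linarith

/-- determinants -/
theorem GQ_dn {A : Matrix (Mon M D) (Mon M D) ℝ} (hA : PdM A) {a b : ℝ} (ha : 0 < a) (hab : a ≤ b) (p : Fin M → ℝ) :
    GQ a A p ≤ (cQ M D * (b / a) ^ (2 * D)) ^ M * GQ b (1 + (a / b) ^ (2 * D) • A) p := by
  have hb : 0 < b := ha.trans_le hab
  have hK : 1 ≤ b / a := (one_le_div ha).mpr hab
  have hs : (0 : ℝ) ≤ (a / b) ^ (2 * D) := by positivity
  have hq : ∀ x, x ⬝ᵥ ((1 + (a / b) ^ (2 * D) • A) *ᵥ x) = x ⬝ᵥ x + (a / b) ^ (2 * D) * (x ⬝ᵥ (A *ᵥ x)) := by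
    intro x
    rw [Matrix.add_mulVec, Matrix.one_mulVec, dotProduct_add, Matrix.smul_mulVec, dotProduct_smul, smul_eq_mul]
  have hB' : ∀ x, 0 ≤ x ⬝ᵥ ((1 + (a / b) ^ (2 * D) • A) *ᵥ x) := by
    intro x
    rw [hq]
    have h1 := mul_nonneg hs (hA.nonneg x)
    have h2 := dot_self_nonneg x
    linarith
  refine GQ_le_of b a (1 + (a / b) ^ (2 * D) • A) A ?_ hB' hA.1 hA.nonneg p p (cQ M D * (b / a) ^ (2 * D))
    (one_le_mul_of_one_le_of_one_le (cQ_one M D) (one_le_pow₀ hK)) fun e => ?_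
  · exact Matrix.isSymm_one.add (hA.1.smul _)
  · have h1 := Jq_comp' A hA b a 1 hb ha.le le_rfl p p (fun i => by
      rw [sub_self, abs_zero, zero_add, one_mul]
      exact hab) e
    rw [one_pow, mul_one] at h1
    have h2 : e ⬝ᵥ (Jq b A p *ᵥ e) ≤ (b / a) ^ (2 * D) * (e ⬝ᵥ (Jq b (1 + (a / b) ^ (2 * D) • A) p *ᵥ e)) := by
      rw [Jq_qf, Jq_qf, Finset.mul_sum]
      refine Finset.sum_le_sum fun j _ => ?_
      set x := Wq M D (nodp D p b j) *ᵥ e
      rw [hq]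
      have e2 : (b / a) ^ (2 * D) * (a / b) ^ (2 * D) = 1 := by
        rw [← mul_pow]
        have : b / a * (a / b) = 1 := by field_simp
        rw [this, one_pow]
      have h3 : 0 ≤ (b / a) ^ (2 * D) * (x ⬝ᵥ x) := mul_nonneg (by positivity) (dot_self_nonneg x)
      calc x ⬝ᵥ (A *ᵥ x) = ((b / a) ^ (2 * D) * (a / b) ^ (2 * D)) * (x ⬝ᵥ (A *ᵥ x)) := by rw [e2, one_mul]
        _ ≤ (b / a) ^ (2 * D) * (x ⬝ᵥ x) + ((b / a) ^ (2 * D) * (a / b) ^ (2 * D)) * (x ⬝ᵥ (A *ᵥ x)) := by linarith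
        _ = _ := by ring
    have h3 := mul_le_mul_of_nonneg_left h2 (zero_le_one.trans (cQ_one M D))
    refine h1.trans (h3.trans (le_of_eq ?_))
    ring

/-! ### the form -/

variable (Q : S.VV M) (t r : ℝ) (ht : 0 < t) (hr : 0 < r) (y : ∀ k, FD ((S.chg S.tr r hr).F k) (Mon M D))

/-- the matrices of the form -/
def dG (k : ℕ) (ω : ((untL (lb y)) k).T.Ω) : Matrix (Mon M D) (Mon M D) ℝ :=
  1 + (S.dl r k / S.dl t k) ^ (2 * D) • cutm ((gaq (Q.chg S.tr r hr) D).cp k) ((y k).g ω)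

theorem dG_ms (k : ℕ) (ω ω' : ((untL (lb y)) k).T.Ω) (a : ((untL (lb y)) k).T.μ ω ≠ 0)
    (b : ((untL (lb y)) k).T.μ ω' ≠ 0) (c : ((untL (lb y)) k).V ω ω') (d : ((untL (lb y)) k).T.Z ω ω') :
    dG Q t r hr y k ω = dG Q t r hr y k ω' := by
  unfold dG
  rw [((y k).meas ω ω' a b c d).1]

/-- THE FORM OF THE COARSER LEVEL -/
def dnFD : ∀ k, FD ((S.chg S.tr t ht).F k) (Mon M D) :=
  cutFD (gaq (Q.chg S.tr t ht) D) (tnL t ht (untL (lb y))) (dG Q t r hr y) (dG_ms Q t r hr y)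

variable {Q t r ht hr y}

theorem dG_one (k : ℕ) (ω : ((untL (lb y)) k).T.Ω) : (dG Q t r hr y k ω).IsSymm ∧
    ∀ x, x ⬝ᵥ x ≤ qf (dG Q t r hr y k ω) x := by
  have h1 := cutm_cpd ((gaq (Q.chg S.tr r hr) D).one_le_cp k) ((y k).g ω)
  constructor
  · exact Matrix.isSymm_one.add (h1.1.smul _)
  · intro x
    have e1 : qf (dG Q t r hr y k ω) x = x ⬝ᵥ x + (S.dl r k / S.dl t k) ^ (2 * D) *
        qf (cutm ((gaq (Q.chg S.tr r hr) D).cp k) ((y k).g ω)) x := by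
      unfold dG qf
      rw [Matrix.add_mulVec, Matrix.one_mulVec, dotProduct_add, Matrix.smul_mulVec, dotProduct_smul, smul_eq_mul]
    rw [e1]
    have h2 : 0 ≤ qf (cutm ((gaq (Q.chg S.tr r hr) D).cp k) ((y k).g ω)) x := (dot_self_nonneg x).trans (h1.2.1 x)
    have h3 : (0 : ℝ) ≤ (S.dl r k / S.dl t k) ^ (2 * D) := by
      have := S.dl_pos r k
      have := S.dl_pos t k
      positivity
    have := mul_nonneg h3 h2
    linarith

/-- the form is typically small -/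
theorem dG_typ (htr : t ≤ r) {A : κ → Part (S.chg S.tr r hr)} (hy : (gaq (Q.chg S.tr r hr) D).Adf A y) :
    ∃ L : ℕ → ℝ, (S.chg S.tr t ht).Sub L ∧ Sp.Typ (S := (tnL t ht (untL (lb y))).sp)
      (fun k (ω : (y k).l.T.Ω) => (gaq (Q.chg S.tr t ht) D).φ k ((y k).l.p.π ω) (dG Q t r hr y k ω) ≤ L k) := by
  obtain ⟨K, hK, hφ⟩ := adf_sub hy
  obtain ⟨K0, hK0, h1⟩ := (gaq (Q.chg S.tr t ht) D).one
  have hc := zero_le_one.trans (cQ_one M D)
  refine ⟨fun k => K0 k + cQ M D * K k, hK0.add (chg_sub S.tr t ht ((S.Sub_const hc).mul (sub_unchg hK))), ?_⟩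
  have hφ' : Tendsto (fun k => (y k).l.T.pb (fun ω =>
      ¬ (gaq (Q.chg S.tr r hr) D).φ k ((y k).l.p.π ω) ((y k).g ω) ≤ K k)) UF (𝓝 0) := hφ
  refine squeeze_zero' (Eventually.of_forall fun k => Sp.mass_res_nonneg (S := (tnL t ht (untL (lb y))).sp) k _) ?_ hφ'
  filter_upwards [hy 1 one_pos, h1] with k hk hk1
  refine mass_res_mono (y k).l.T.μ _ _ (y k).l.T.nn (fun ω hω hE hcon => hE ?_)
  have hcp := (hk.2.1 ω hω).1
  have e1 : dG Q t r hr y k ω = 1 + (S.dl r k / S.dl t k) ^ (2 * D) • (y k).g ω := by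
    unfold dG
    rw [cutm_pos hcp]
  have h2 := phi_dn hcp.pdM (S.dl_pos r k) (S.dl_anti htr k) (Q.v k ((y k).l.p.π ω))
  have h3 : phi (S.dl r k) ((y k).g ω) (Q.v k ((y k).l.p.π ω)) ≤ K k := by
    have h4 : phi ((S.chg S.tr r hr).dl 1 k) ((y k).g ω) (Q.v k ((y k).l.p.π ω)) ≤ K k := hcon
    rwa [chg_dl, mul_one] at h4
  have h5 : phi (S.dl t k) (1 : Matrix (Mon M D) (Mon M D) ℝ) (Q.v k ((y k).l.p.π ω)) ≤ K0 k := by
    have h4 : phi ((S.chg S.tr t ht).dl 1 k) (1 : Matrix (Mon M D) (Mon M D) ℝ) (Q.v k ((y k).l.p.π ω)) ≤ K0 k :=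
      hk1 _ ((y k).l.p.supp ω hω)
    rwa [chg_dl, mul_one] at h4
  show phi ((S.chg S.tr t ht).dl 1 k) (dG Q t r hr y k ω) (Q.v k ((y k).l.p.π ω)) ≤ _
  rw [chg_dl, mul_one, e1]
  have h6 := mul_le_mul_of_nonneg_left h3 hc
  linarith

/-- THE FORM OF THE COARSER LEVEL is admissible -/
theorem dnFD_adf [Finite κ] (htr : t ≤ r) {B : κ → ∀ k, Setoid (S.F k).Ω}
    (hy : (gaq (Q.chg S.tr r hr) D).Adf (fcs (S.chg S.tr r hr) B) y) :
    (gaq (Q.chg S.tr t ht) D).Adf (fcs (S.chg S.tr t ht) B) (dnFD Q t r ht hr y) := by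
  obtain ⟨L, hL, hT⟩ := dG_typ (ht := ht) htr hy
  exact cut_adf (Φ := gaq (Q.chg S.tr t ht) D) (tnL t ht (untL (lb y))) (tnL_DMf.2 (untL_DMf.2 hy.dm)) _ _
    (Eventually.of_forall fun k ω _ => dG_one k ω) L hL hT

/-- typically nothing is cut off -/
theorem dnFD_g (htr : t ≤ r) {A : κ → Part (S.chg S.tr r hr)} (hy : (gaq (Q.chg S.tr r hr) D).Adf A y) :
    Tendsto (fun k => (y k).l.T.pb (fun ω => ¬ (dnFD Q t r ht hr y k).g ω =
      1 + (S.dl r k / S.dl t k) ^ (2 * D) • (y k).g ω)) UF (𝓝 0) := by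
  obtain ⟨L, hL, hT⟩ := dG_typ (ht := ht) htr hy
  have hc := cut_typ (Φ := gaq (Q.chg S.tr t ht) D) (tnL t ht (untL (lb y))) (dG Q t r hr y)
    (Eventually.of_forall fun k ω _ => dG_one k ω) L hL hT
  have hc' : Tendsto (fun k => (y k).l.T.pb (fun ω => ¬ Cpd ((gaq (Q.chg S.tr t ht) D).cp k) (dG Q t r hr y k ω))) UF
    (𝓝 0) := hc
  refine squeeze_zero' (Eventually.of_forall fun k => (y k).l.T.pb_nonneg _) ?_ hc'
  filter_upwards [hy 1 one_pos] with k hk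
  refine (y k).l.T.pb_mono ?_
  intro ω hω h3 h4
  apply h3
  have hcp := (hk.2.1 ω hω).1
  have e3 : (dnFD Q t r ht hr y k).g ω = cutm ((gaq (Q.chg S.tr t ht) D).cp k) (dG Q t r hr y k ω) := rfl
  rw [e3, cutm_pos h4]
  unfold dG
  rw [cutm_pos hcp]

/-- exponents on the two levels -/
theorem gx_dn (htr : t ≤ r) {A : Matrix (Mon M D) (Mon M D) ℝ} (hA : PdM A) (k : ℕ) (ω : (S.F k).Ω) :
    r * gx (Q.chg S.tr r hr) k ω A ≤ t * gx (Q.chg S.tr t ht) k ω (1 + (S.dl r k / S.dl t k) ^ (2 * D) • A) +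
      (M * D * (r - t) + M * Real.logb 2 (cQ M D) / 2 / (S.F k).n) := by
  have hn := (S.F k).pos
  rw [r_gx, r_gx]
  have h1 := GQ_dn hA (S.dl_pos r k) (S.dl_anti htr k) (Q.v k ω)
  set B := 1 + (S.dl r k / S.dl t k) ^ (2 * D) • A with hB
  set G' := GQ (S.dl t k) B (Q.v k ω) with hG'
  have hG1 : 1 ≤ GQ (S.dl r k) A (Q.v k ω) := one_le_GQ _ hA.1 hA.nonneg _
  have hc : 0 < cQ M D := zero_lt_one.trans_le (cQ_one M D)
  have hd : 0 < S.dl t k / S.dl r k := div_pos (S.dl_pos t k) (S.dl_pos r k)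
  have hpp : 0 < (cQ M D * (S.dl t k / S.dl r k) ^ (2 * D)) ^ M := by positivity
  have hG0 : 0 < G' := by
    by_contra hcon
    have h2 := mul_nonpos_of_nonneg_of_nonpos hpp.le (not_lt.1 hcon)
    linarith
  have h2 := Real.logb_le_logb_of_le (b := 2) (by norm_num) (by linarith) h1
  have e1 : Real.logb 2 (S.dl t k / S.dl r k) = (r - t) * (S.F k).n := by
    unfold Sp.dl
    rw [← Real.rpow_sub (by norm_num), Real.logb_rpow (by norm_num) (by norm_num)]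
    ring
  rw [Real.logb_mul hpp.ne' hG0.ne', Real.logb_pow, Real.logb_mul hc.ne' (pow_pos hd _).ne', Real.logb_pow, e1] at h2
  have h3 := div_le_div_of_nonneg_right h2 (show (0 : ℝ) ≤ 2 * (S.F k).n by positivity)
  refine h3.trans (le_of_eq ?_)
  push_cast
  field_simp
  ring

theorem dn_aux1 (htr : t ≤ r) {A : κ → Part (S.chg S.tr r hr)} (hy : (gaq (Q.chg S.tr r hr) D).Adf A y) (e : ℝ)
    (he : 0 < e) : Tendsto (fun k => (y k).l.T.pb (fun ω =>
      ¬ r * gx (Q.chg S.tr r hr) k ((y k).l.p.π ω) ((y k).g ω) ≤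
        t * gx (Q.chg S.tr t ht) k ((y k).l.p.π ω) ((dnFD Q t r ht hr y k).g ω) + M * D * (r - t) + e)) UF (𝓝 0) := by
  have h1 := S.div_n_tendsto (M * Real.logb 2 (cQ M D) / 2)
  refine squeeze_zero' (Eventually.of_forall fun k => (y k).l.T.pb_nonneg _) ?_ (dnFD_g (ht := ht) htr hy)
  filter_upwards [hy 1 one_pos, h1.eventually (gt_mem_nhds he)] with k hk b
  refine (y k).l.T.pb_mono ?_
  intro ω hω h3 h4
  apply h3
  rw [h4]
  have h5 := gx_dn (Q := Q) (ht := ht) (hr := hr) htr (hk.2.1 ω hω).1.pdM k ((y k).l.p.π ω)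
  linarith

/-- volumes -/
theorem vol_dnFD (h1 : r ≤ 1) (htr : t ≤ r) [Finite κ] {B : κ → ∀ k, Setoid (S.F k).Ω}
    (hy : (gaq (Q.chg S.tr r hr) D).Adf (fcs (S.chg S.tr r hr) B) y) :
    r * (M - vol (Q.chg S.tr r hr) D y) ≤ t * (M - vol (Q.chg S.tr t ht) D (dnFD Q t r ht hr y)) + M * D * (r - t) := by
  have hz := dnFD_adf (ht := ht) htr hy
  have hUx := vx_UB hz
  have hUy := vx_UB hy
  have h0 : (0 : ℝ) ≤ M * D * (r - t) := by
    have : 0 ≤ r - t := by linarith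
    positivity
  rw [vol_eq, vol_eq, sub_sub_cancel, sub_sub_cancel, ← ul_const_mul r hUy, ← ul_const_mul t hUx]
  apply le_of_forall_pos_le_add
  intro e he
  have h3 : ∀ᶠ k in UF, r * vx (Q.chg S.tr r hr) y k ≤
      t * vx (Q.chg S.tr t ht) (dnFD Q t r ht hr y) k + (M * D * (r - t) + e) := by
    have a1 : ∀ᶠ k in UF, ∀ ω, (y k).l.T.μ ω ≠ 0 → r * gx (Q.chg S.tr r hr) k ((y k).l.p.π ω) ((y k).g ω) ≤
        ((gaq (Q.chg S.tr r hr) D).C + 1 + 3) * M := by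
      filter_upwards [gx_bd hy, gx_nn hy] with k a b ω hω
      have h5 := mul_le_mul_of_nonneg_right h1 (b ω hω)
      rw [one_mul] at h5
      exact h5.trans (a ω hω)
    have a2 : ∀ᶠ k in UF, ∀ ω, (y k).l.T.μ ω ≠ 0 →
        0 ≤ t * gx (Q.chg S.tr t ht) k ((y k).l.p.π ω) ((dnFD Q t r ht hr y k).g ω) + M * D * (r - t) := by
      have := gx_nn hz
      filter_upwards [this] with k a ω hω
      have h6 := a ω hω
      exact add_nonneg (mul_nonneg ht.le h6) h0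
    have a3 := mean_le (F := fun k => (y k).l.T)
      (fun k ω => r * gx (Q.chg S.tr r hr) k ((y k).l.p.π ω) ((y k).g ω))
      (fun k ω => t * gx (Q.chg S.tr t ht) k ((y k).l.p.π ω) ((dnFD Q t r ht hr y k).g ω) + M * D * (r - t))
      (((gaq (Q.chg S.tr r hr) D).C + 1 + 3) * M) a1 a2 (fun e he => dn_aux1 htr hy e he) e he
    filter_upwards [a3] with k hk
    have e1 : ∑ ω, (y k).l.T.μ ω * (r * gx (Q.chg S.tr r hr) k ((y k).l.p.π ω) ((y k).g ω)) =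
        r * vx (Q.chg S.tr r hr) y k := by
      unfold vx
      rw [Finset.mul_sum]
      exact Finset.sum_congr rfl fun ω _ => mul_left_comm _ _ _
    have e2 : ∑ ω, (y k).l.T.μ ω * (t * gx (Q.chg S.tr t ht) k ((y k).l.p.π ω) ((dnFD Q t r ht hr y k).g ω) +
        M * D * (r - t)) = t * vx (Q.chg S.tr t ht) (dnFD Q t r ht hr y) k + M * D * (r - t) := by
      have e3 : ∀ ω, (y k).l.T.μ ω * (t * gx (Q.chg S.tr t ht) k ((y k).l.p.π ω) ((dnFD Q t r ht hr y k).g ω) +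
          M * D * (r - t)) = t * ((y k).l.T.μ ω * gx (Q.chg S.tr t ht) k ((y k).l.p.π ω)
            ((dnFD Q t r ht hr y k).g ω)) + (y k).l.T.μ ω * (M * D * (r - t)) := fun ω => by ring
      rw [Finset.sum_congr rfl fun ω _ => e3 ω, Finset.sum_add_distrib, ← Finset.sum_mul]
      have e4 : ∑ ω, (y k).l.T.μ ω = 1 := (y k).l.T.ms
      rw [e4, one_mul, ← Finset.mul_sum]
      rfl
    rw [e1, e2] at hk
    linarith
  have h4 := ul_mono (hUy.const_mul r) ((hUx.const_mul t).add (UB_const (M * D * (r - t) + e))) h3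
  rw [ul_add (hUx.const_mul t) (UB_const _), ul_const] at h4
  linarith

/-- **OPTIMAL VOLUMES OF TWO TRUNCATIONS** -/
theorem volC_lvl [Finite κ] (Q : S.VV M) (ht : 0 < t) (hr : 0 < r) (h1 : r ≤ 1) (htr : t ≤ r)
    (B : κ → ∀ k, Setoid (S.F k).Ω) (C : ∀ k, Setoid (S.F k).Ω) (D : ℕ) :
    r * (M - volC (LC.kz (S := S.chg S.tr r hr) fun k => fc (F := (S.chg S.tr r hr).F k) (C k))
      (fcs (S.chg S.tr r hr) B) (Q.chg S.tr r hr) D) ≤
    t * (M - volC (LC.kz (S := S.chg S.tr t ht) fun k => fc (F := (S.chg S.tr t ht).F k) (C k))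
      (fcs (S.chg S.tr t ht) B) (Q.chg S.tr t ht) D) + M * D * (r - t) := by
  obtain ⟨y, hy⟩ := (gaq (Q.chg S.tr r hr) D).exists_optfK
    (LC.kz (S := S.chg S.tr r hr) fun k => fc (F := (S.chg S.tr r hr).F k) (C k)) (fcs (S.chg S.tr r hr) B)
  have h2 := vol_dnFD (ht := ht) h1 htr hy.1.1
  have h3 : (gaq (Q.chg S.tr t ht) D).AdfK (LC.kz (S := S.chg S.tr t ht) fun k => fc (F := (S.chg S.tr t ht).F k) (C k))
    (fcs (S.chg S.tr t ht) B) (dnFD Q t r ht hr y) := ⟨dnFD_adf htr hy.1.1, tnL_kz.2 (untL_kz.2 hy.1.2)⟩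
  have h4 := volC_le_of h3
  rw [volC_eq hy]
  have h5 := mul_le_mul_of_nonneg_left (sub_le_sub_left h4 (M : ℝ)) ht.le
  linarith

end

end Pool.Agent.Helper46.FST
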