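import Pool.Agent.Helper46.FST.Lvl

/-! THE HULL DOES NOT CHANGE BETWEEN THE LEVELS `e` AND `1` if the codimension at the window `c` is at most `e` on all
events of all extensions. The truncation at the level `1`. -/

set_option autoImplicit false

namespace Pool.Agent.Helper46.FST

open Finset Filter Topology Matrix MvPolynomial Pool.Agent.Helper69.RK Pool.Agent.Helper31.EC
open Pool.Agent.Helper31.EC.Sp
open Pool.Agent.Helper40.EL Pool.Agent.Helper89.LX Pool.Agent.Helper3.LF Pool.Agent.Helper84.MT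
open Pool.Agent.Helper7.RD (volC volCO volC_eq volC_le_of volCO_le)
open Pool.Agent.Helper71.VIS (fcs cnw cndR_fcs cndR_trn volC_trn_le volKO_trn)
open Pool.Agent.Helper87.NSL (cndR KnS)
open Pool.Agent.Helper29.MX

noncomputable section

variable {S T : Sp} {N M : ℕ} {E : ℕ → ℕ} {κ ι : Type}

/-! ### the truncation at the level `1` -/

/-- the space with another base and another depth -/
def nsp (S : Sp) (Z : ∀ k, Setoid (S.F k).Ω) (n : ℕ → ℝ) (hp : ∀ k, 0 < n k) (hl : Tendsto n UF atTop) : Sp where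
  F := fun k => ⟨(S.F k).Ω, (S.F k).ft, (S.F k).μ, (S.F k).nn, (S.F k).ms, Z k, n k, hp k⟩
  lim := hl

/-- the optimal volume as a function of the base and of the depth -/
def nvol (S : Sp) (Z : ∀ k, Setoid (S.F k).Ω) (n : ℕ → ℝ) (hp : ∀ k, 0 < n k) (hl : Tendsto n UF atTop)
    (C : ∀ k, Setoid (S.F k).Ω) (B : κ → ∀ k, Setoid (S.F k).Ω) (v : ∀ k, (S.F k).Ω → Fin M → ℝ)
    (hv : ∃ K : ℕ → ℝ, (nsp S Z n hp hl).Sub K ∧ ∀ᶠ k in UF, ∀ ω, (S.F k).μ ω ≠ 0 → ∀ i, |v k ω i| ≤ K k) (D : ℕ) : ℝ :=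
  volC (S := nsp S Z n hp hl) (LC.kz (S := nsp S Z n hp hl) fun k => fc (F := (nsp S Z n hp hl).F k) (C k))
    (fun i k => fc (F := (nsp S Z n hp hl).F k) (B i k)) (⟨v, hv⟩ : (nsp S Z n hp hl).VV M) D

theorem nvol_congr (S : Sp) {Z Z' : ∀ k, Setoid (S.F k).Ω} {n n' : ℕ → ℝ} (hZ : Z = Z') (hn : n = n')
    (hp : ∀ k, 0 < n k) (hl : Tendsto n UF atTop) (hp' : ∀ k, 0 < n' k) (hl' : Tendsto n' UF atTop)
    (C : ∀ k, Setoid (S.F k).Ω) (B : κ → ∀ k, Setoid (S.F k).Ω) (v : ∀ k, (S.F k).Ω → Fin M → ℝ)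
    (hv : ∃ K : ℕ → ℝ, (nsp S Z n hp hl).Sub K ∧ ∀ᶠ k in UF, ∀ ω, (S.F k).μ ω ≠ 0 → ∀ i, |v k ω i| ≤ K k)
    (hv' : ∃ K : ℕ → ℝ, (nsp S Z' n' hp' hl').Sub K ∧ ∀ᶠ k in UF, ∀ ω, (S.F k).μ ω ≠ 0 → ∀ i, |v k ω i| ≤ K k)
    (D : ℕ) : nvol S Z n hp hl C B v hv D = nvol S Z' n' hp' hl' C B v hv' D := by
  subst hZ
  subst hn
  rfl

theorem volC_one (Q : S.VV M) (h1 : (0 : ℝ) < 1) (B : κ → ∀ k, Setoid (S.F k).Ω) (C : ∀ k, Setoid (S.F k).Ω) (D : ℕ) :
    volC (LC.kz (S := S.chg S.tr 1 h1) fun k => fc (F := (S.chg S.tr 1 h1).F k) (C k))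
      (fcs (S.chg S.tr 1 h1) B) (Q.chg S.tr 1 h1) D = volC (LC.kz fun k => fc (C k)) (fcs S B) Q D := by
  have e1 : (fun k => S.tr k ⊓ (S.F k).Z) = fun k => (S.F k).Z := funext fun k => top_inf_eq _
  have e2 : (fun k => 1 * (S.F k).n) = fun k => (S.F k).n := funext fun k => one_mul _
  exact nvol_congr S e1 e2 (fun k => ((S.chg S.tr 1 h1).F k).pos) (S.chg S.tr 1 h1).lim (fun k => (S.F k).pos) S.lim
    C B Q.v (Q.chg S.tr 1 h1).bd Q.bd D

/-- THE TRUNCATION AT THE LEVEL `1` has the volumes of the system -/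
theorem volK_one (s : MSys S M E ι) (h0 : (0 : ℝ) < 1) (h1 : (1 : ℝ) ≤ 1) (R : Rsl S) (D : ℕ) (c : ℝ) :
    volK (s.trn 1 h0 h1) R D c = volK s R D c := by
  rw [volK_eq, volK_eq, cndR_trn, cndR_fcs s, one_mul]
  exact volC_one s.Q h0 _ R D

theorem volKO_one (s : MSys S M E ι) (h0 : (0 : ℝ) < 1) (h1 : (1 : ℝ) ≤ 1) (R : Rsl S) (c : ℝ) :
    volKO (s.trn 1 h0 h1) R c = volKO s R c := by
  unfold volKO
  exact iInf_congr fun D => volK_one s h0 h1 R D c

/-! ### two levels -/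

/-- K-VOLUMES OF TWO TRUNCATIONS, degree `D` -/
theorem volK_lvl [Finite ι] (s : MSys S M E ι) (R : Rsl S) (D : ℕ) {t r : ℝ} (ht : 0 < t) (hr : 0 < r) (h1 : r ≤ 1)
    (htr : t ≤ r) (c : ℝ) : r * (M - volK (s.trn r hr h1) R D (c / r)) ≤
      t * (M - volK (s.trn t ht (htr.trans h1)) R D (c / t)) + M * D * (r - t) := by
  rw [volK_eq, volK_eq, cndR_trn, cndR_trn, mul_div_cancel₀ c hr.ne', mul_div_cancel₀ c ht.ne']
  exact volC_lvl s.Q ht hr h1 htr _ R D

/-- THE HULL DOES NOT CHANGE between the levels `e` and `1`: degree `D` -/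
theorem trvD [Finite ι] (s : MSys S N E ι) (R : Rsl S) (hP : Pt s R) {e c : ℝ} (h0 : 0 < e) (h1 : e < 1)
    (h : ∀ (T : Sp) (p : Pj T S) (A : ∀ k, (T.F k).Ω → Prop) (hA : 0 < ul (T.pr A)),
      N - volKO (S := Sp.im p A) (s.im p A hA) R c ≤ e) (D : ℕ) :
    N - volK s R D c ≤ e * (N - volK (s.trn e h0 h1.le) R D (c / e)) := by
  have key : ∀ r : ℝ, e < r → r ≤ 1 →
      N - volK s R D c ≤ e * (N - volK (s.trn e h0 h1.le) R D (c / e)) + N * D * (r - e) := by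
    intro r her hr1
    have hr : 0 < r := h0.trans her
    have hc : r * (c / r) = c := mul_div_cancel₀ c hr.ne'
    have h2 := volC_trn_le s R s.Q hP hr hr1 (c / r) D (v := N - e) (by rw [sub_sub_cancel]; exact her)
      fun T p A hA => by
        rw [hc]
        have h3 := h T p A hA
        have h4 := volKO_le_volK (S := Sp.im p A) (s.im p A hA) R D c
        rw [volK_eq (S := Sp.im p A)] at h4
        have h5 : N - e ≤ volKO (S := Sp.im p A) (s.im p A hA) R c := by linarith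
        exact h5.trans h4
    rw [hc] at h2
    have h3 : volK (s.trn r hr hr1) R D (c / r) ≤ N - (N - volK s R D c) / r := by
      rw [volK_eq, volK_eq]
      exact h2
    have h4 := volK_lvl s R D h0 hr hr1 her.le c
    have h5 : N - volK s R D c ≤ r * (N - volK (s.trn r hr hr1) R D (c / r)) := by
      rw [le_sub_comm, div_le_iff₀ hr] at h3
      linarith
    exact h5.trans h4
  apply le_of_forall_pos_le_add
  intro ε hε
  have hND : (0 : ℝ) ≤ N * D := by positivity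
  obtain ⟨r, hr1, hr2, hr3⟩ : ∃ r : ℝ, e < r ∧ r ≤ 1 ∧ N * D * (r - e) ≤ ε := by
    refine ⟨e + min (1 - e) (ε / (N * D + 1)), ?_, ?_, ?_⟩
    · have : 0 < min (1 - e) (ε / (N * D + 1)) := lt_min (by linarith) (by positivity)
      linarith
    · have := min_le_left (1 - e) (ε / (N * D + 1))
      linarith
    · rw [add_sub_cancel_left]
      have h2 := mul_le_mul_of_nonneg_left (min_le_right (1 - e) (ε / (N * D + 1))) hND
      refine h2.trans ?_
      rw [mul_div_assoc', div_le_iff₀ (by positivity)]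
      nlinarith
  exact (key r hr1 hr2).trans (by linarith)

/-- THE HULL DOES NOT CHANGE between the levels `e` and `1` -/
theorem trvO [Finite ι] (s : MSys S N E ι) (R : Rsl S) (hP : Pt s R) {e c : ℝ} (h0 : 0 < e) (h1 : e < 1)
    (h : ∀ (T : Sp) (p : Pj T S) (A : ∀ k, (T.F k).Ω → Prop) (hA : 0 < ul (T.pr A)),
      N - volKO (S := Sp.im p A) (s.im p A hA) R c ≤ e) :
    N - volKO s R c ≤ e * (N - volKO (s.trn e h0 h1.le) R (c / e)) := by
  have h2 : ∀ D, N - e * (N - volKO (s.trn e h0 h1.le) R (c / e)) ≤ volK s R D c := by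
    intro D
    have h3 := trvD s R hP h0 h1 h D
    have h4 := volKO_le_volK (s.trn e h0 h1.le) R D (c / e)
    have h5 := mul_le_mul_of_nonneg_left (sub_le_sub_left h4 (N : ℝ)) h0.le
    linarith
  have h3 : N - e * (N - volKO (s.trn e h0 h1.le) R (c / e)) ≤ volKO s R c := le_ciInf h2
  linarith

end

end Pool.Agent.Helper46.FST
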